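import Mathlib

/-!
# Semi-essential edges that are never very influential

Let `v = e₁`.  An edge `j` parallel to `e₁` at height `k` (in direction `e₂`) lies on no path from
`0` to `n e₁` with fewer than `n + 2k` edges.  If `ω_j = b` such a path costs at least
`a (n + 2k - 1) + b`, which is more than `b n` if `(b - a)(n - 1) < 2ka`; so `j` is never very
influential.  But if `2ka ≤ (b - a) n` then `j` can be on a geodesic.
-/

set_option autoImplicit false

open MeasureTheory SimpleGraph Set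
open scoped ENNReal

namespace Pool.Agent.Results.MP_b09029_pr.NotComparable

/-- The vertex set `ℤ^d ∩ [-2n,2n]^d`. -/
abbrev Box (d n : ℕ) := Fin d → Set.Icc (-(2 * (n : ℤ))) (2 * (n : ℤ))

/-- The graph `G_n`: two vertices are adjacent iff their `ℓ¹` distance is `1`. -/
def G (d n : ℕ) : SimpleGraph (Box d n) where
  Adj x y := ∑ i, |(x i : ℤ) - (y i : ℤ)| = 1
  symm := ⟨fun x y h => by simpa only [abs_sub_comm] using h⟩
  loopless := ⟨fun x h => by simp at h⟩

/-- `ω_e ∈ {a,b}`: a configuration assigns to each edge of `G_n` the value `true` (that is `a`) or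
`false` (that is `b`). -/
abbrev Conf (d n : ℕ) := (G d n).edgeSet → Bool

/-- the value `a` or `b` -/
def val (a b : ℝ) (c : Bool) : ℝ := if c then a else b

/-- The passage time `T(γ,ω)` of a path. -/
def T {d n : ℕ} (a b : ℝ) (ω : Conf d n) : {x y : Box d n} → (G d n).Walk x y → ℝ
  | _, _, .nil => 0
  | x, _, .cons (v := z) h γ => val a b (ω ⟨s(x, z), h⟩) + T a b ω γ

/-- The origin. -/
def org (d n : ℕ) : Box d n := fun _ => ⟨0, by constructor <;> omega⟩

/-- The vertex `n v`. -/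
def tgt {d : ℕ} (n : ℕ) (v : Fin d → ℤ) (hv : ∀ i, |v i| ≤ 2) : Box d n :=
  fun i => ⟨n * v i, by
    have h1 := abs_le.1 (hv i)
    have h2 : (0 : ℤ) ≤ n := by positivity
    constructor <;> nlinarith [h1.1, h1.2]⟩

section defs

variable {d n : ℕ} (a b : ℝ) (v : Fin d → ℤ) (hv : ∀ i, |v i| ≤ 2)

/-- `f(ω)`: the smallest passage time of a path from `0` to `n v`. -/
noncomputable def f (ω : Conf d n) : ℝ := ⨅ γ : (G d n).Walk (org d n) (tgt n v hv), T a b ω γ

/-- `Ê_j`: at least one geodesic passes through `j`. -/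
def SemiEssential (j : (G d n).edgeSet) : Set (Conf d n) :=
  {ω | ∃ γ : (G d n).Walk (org d n) (tgt n v hv), T a b ω γ = f a b v hv ω ∧ (j : Sym2 _) ∈ γ.edges}

open scoped Classical in
/-- `Â_j`: `∂_j f = b - a`. -/
def VeryInfluential (j : (G d n).edgeSet) : Set (Conf d n) :=
  {ω | f a b v hv (Function.update ω j false) - f a b v hv (Function.update ω j true) = b - a}

open scoped Classical in
/-- The product measure with `P(ω_e = a) = p`, `P(ω_e = b) = 1 - p`. -/
noncomputable def Pr (d n : ℕ) (p : ℝ) : Measure (Conf d n) :=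
  Measure.pi fun _ => ENNReal.ofReal p • Measure.dirac true + ENNReal.ofReal (1 - p) • Measure.dirac false

end defs

section lemmas

variable {d n : ℕ} {a b : ℝ}

lemma le_val (hab : a ≤ b) (c : Bool) : a ≤ val a b c := by
  unfold val; split_ifs <;> linarith

lemma val_le (hab : a ≤ b) (c : Bool) : val a b c ≤ b := by
  unfold val; split_ifs <;> linarith

lemma length_le_T (hab : a ≤ b) (ω : Conf d n) : ∀ {x y : Box d n} (γ : (G d n).Walk x y),
    a * γ.length ≤ T a b ω γ
  | _, _, .nil => by simp [T]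
  | x, _, .cons (v := z) h γ => by
    have h1 := length_le_T hab ω γ
    have h2 := le_val hab (ω ⟨s(x, z), h⟩)
    simp only [T, Walk.length_cons]
    push_cast
    linarith

lemma T_le_length (hab : a ≤ b) (ω : Conf d n) : ∀ {x y : Box d n} (γ : (G d n).Walk x y),
    T a b ω γ ≤ b * γ.length
  | _, _, .nil => by simp [T]
  | x, _, .cons (v := z) h γ => by
    have h1 := T_le_length hab ω γ
    have h2 := val_le hab (ω ⟨s(x, z), h⟩)
    simp only [T, Walk.length_cons]
    push_cast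
    linarith

lemma T_append (ω : Conf d n) : ∀ {x y z : Box d n} (γ : (G d n).Walk x y)
    (γ' : (G d n).Walk y z), T a b ω (γ.append γ') = T a b ω γ + T a b ω γ'
  | _, _, _, .nil, γ' => by simp [T]
  | x, _, _, .cons (v := u) h γ, γ' => by
    have h1 := T_append ω γ γ'
    simp only [T, Walk.cons_append]
    rw [h1, add_assoc]

/-- total variation of the coordinate `i` along a path -/
def cnt (i : Fin d) : {x y : Box d n} → (G d n).Walk x y → ℤ
  | _, _, .nil => 0
  | x, _, .cons (v := z) _ γ => |(x i : ℤ) - (z i : ℤ)| + cnt i γ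

lemma cnt_nonneg (i : Fin d) : ∀ {x y : Box d n} (γ : (G d n).Walk x y), 0 ≤ cnt i γ
  | _, _, .nil => le_rfl
  | _, _, .cons _ γ => add_nonneg (abs_nonneg _) (cnt_nonneg i γ)

lemma le_cnt (i : Fin d) : ∀ {x y : Box d n} (γ : (G d n).Walk x y),
    |(x i : ℤ) - (y i : ℤ)| ≤ cnt i γ
  | _, _, .nil => by simp [cnt]
  | x, y, .cons (v := z) _ γ => by
    have h1 := le_cnt i γ
    have h2 := abs_sub_le (x i : ℤ) (z i : ℤ) (y i : ℤ)
    simp only [cnt]
    linarith

lemma le_cnt_of_mem (i : Fin d) {z : Box d n} : ∀ {x y : Box d n} (γ : (G d n).Walk x y),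
    z ∈ γ.support → |(x i : ℤ) - (z i : ℤ)| + |(z i : ℤ) - (y i : ℤ)| ≤ cnt i γ
  | _, _, .nil, h => by
    simp only [Walk.support_nil, List.mem_singleton] at h
    subst h
    simp [cnt]
  | x, y, .cons (v := u) h γ, hz => by
    rw [Walk.support_cons, List.mem_cons] at hz
    rcases hz with rfl | hz
    · have h1 := le_cnt i (Walk.cons h γ)
      simpa using h1
    · have h1 := le_cnt_of_mem i γ hz
      have h2 := abs_sub_le (x i : ℤ) (u i : ℤ) (z i : ℤ)
      simp only [cnt]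
      linarith

lemma cnt_add_le {i₀ i₁ : Fin d} (hne : i₀ ≠ i₁) : ∀ {x y : Box d n} (γ : (G d n).Walk x y),
    cnt i₀ γ + cnt i₁ γ ≤ γ.length
  | _, _, .nil => by simp [cnt]
  | x, _, .cons (v := z) h γ => by
    have h1 := cnt_add_le hne γ
    have h2 : |(x i₀ : ℤ) - (z i₀ : ℤ)| + |(x i₁ : ℤ) - (z i₁ : ℤ)| ≤ 1 := by
      have h3 : ∑ i, |(x i : ℤ) - (z i : ℤ)| = 1 := h
      rw [← h3, ← Finset.sum_pair (f := fun i => |(x i : ℤ) - (z i : ℤ)|) hne]
      exact Finset.sum_le_sum_of_subset_of_nonneg (Finset.subset_univ _)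
        fun i _ _ => abs_nonneg _
    simp only [cnt, Walk.length_cons]
    push_cast
    linarith

lemma f_le (ha : 0 ≤ a) (hab : a ≤ b) {v : Fin d → ℤ} {hv : ∀ i, |v i| ≤ 2} (ω : Conf d n)
    (γ : (G d n).Walk (org d n) (tgt n v hv)) : f a b v hv ω ≤ T a b ω γ := by
  apply ciInf_le
  refine ⟨0, ?_⟩
  rintro _ ⟨γ', rfl⟩
  exact le_trans (by positivity) (length_le_T hab ω γ')

/-- a straight path with cheap edges, in both directions -/
lemma straight (ω : Conf d n) (i : Fin d) (m : ℕ) : ∀ x y : Box d n,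
    (∀ l, l ≠ i → y l = x l) → (y i : ℤ) = x i + m →
    (∀ (u u' : Box d n) (h : (G d n).Adj u u'), (∀ l, l ≠ i → u l = x l) →
      (∀ l, l ≠ i → u' l = x l) → (u i : ℤ) ≠ u' i → ω ⟨s(u, u'), h⟩ = true) →
    (∃ γ : (G d n).Walk x y, T a b ω γ = a * m) ∧ (∃ γ : (G d n).Walk y x, T a b ω γ = a * m) := by
  induction m with
  | zero =>
    intro x y h1 h2 _
    have : y = x := by
      funext l
      by_cases hl : l = i
      · subst hl
        apply Subtype.ext
        simpa using h2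
      · exact h1 l hl
    subst this
    exact ⟨⟨.nil, by simp [T]⟩, ⟨.nil, by simp [T]⟩⟩
  | succ m ih =>
    intro x y h1 h2 h3
    have hxi := (x i).2
    have hyi := (y i).2
    rw [Set.mem_Icc] at hxi hyi
    push_cast at h2
    -- the next vertex
    set x' : Box d n := Function.update x i ⟨(x i : ℤ) + 1, by
      rw [Set.mem_Icc]; constructor <;> linarith [hxi.1, hyi.2, Int.natCast_nonneg m]⟩ with hx'
    have hx'i : ((x' i : _) : ℤ) = x i + 1 := by rw [hx', Function.update_self]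
    have hx'l : ∀ l, l ≠ i → x' l = x l := fun l hl => by
      rw [hx', Function.update_of_ne hl]
    have hadj : (G d n).Adj x x' := by
      change ∑ l, |(x l : ℤ) - (x' l : ℤ)| = 1
      rw [Finset.sum_eq_single i]
      · rw [hx'i]
        simp
      · intro l _ hl
        rw [hx'l l hl]
        simp
      · intro h
        exact absurd (Finset.mem_univ i) h
    obtain ⟨⟨γ, hγ⟩, ⟨γ', hγ'⟩⟩ := ih x' y (fun l hl => by rw [h1 l hl, hx'l l hl])
      (by rw [h2, hx'i]; ring) (fun u u' h hu hu' hne =>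
        h3 u u' h (fun l hl => by rw [hu l hl, hx'l l hl]) (fun l hl => by rw [hu' l hl, hx'l l hl])
          hne)
    have hv1 : ω ⟨s(x, x'), hadj⟩ = true := by
      apply h3 x x' hadj (fun l _ => rfl) hx'l
      rw [hx'i]; omega
    have hv2 : ω ⟨s(x', x), hadj.symm⟩ = true := by
      apply h3 x' x hadj.symm hx'l (fun l _ => rfl)
      rw [hx'i]; omega
    refine ⟨⟨.cons hadj γ, ?_⟩, ⟨γ'.append (.cons hadj.symm .nil), ?_⟩⟩
    · simp only [T]
      rw [hγ, hv1]
      simp only [val, if_true]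
      push_cast
      ring
    · rw [T_append, hγ']
      simp only [T]
      rw [hv2]
      simp only [val, if_true]
      push_cast
      ring

/-- the configuration: edges in direction `i₁` and all edges at height `k` are cheap -/
noncomputable def om (d n : ℕ) (i₁ : Fin d) (k : ℤ) : Conf d n := by
  classical
  exact fun e => decide (∃ x y : Box d n, (e : Sym2 _) = s(x, y) ∧
    ((x i₁ : ℤ) ≠ y i₁ ∨ (x i₁ : ℤ) = k))

lemma om_true {i₁ : Fin d} {k : ℤ} {x y : Box d n} (h : (G d n).Adj x y)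
    (h2 : (x i₁ : ℤ) ≠ y i₁ ∨ (x i₁ : ℤ) = k) : om d n i₁ k ⟨s(x, y), h⟩ = true := by
  classical
  unfold om
  rw [decide_eq_true_iff]
  exact ⟨x, y, rfl, h2⟩

lemma om_false {i₁ : Fin d} {k : ℤ} {x y : Box d n} (h : (G d n).Adj x y)
    (h2 : (x i₁ : ℤ) = y i₁) (h3 : (x i₁ : ℤ) ≠ k) : om d n i₁ k ⟨s(x, y), h⟩ = false := by
  classical
  unfold om
  rw [decide_eq_false_iff_not]
  rintro ⟨x', y', he, h4⟩
  rcases Sym2.eq_iff.1 he with ⟨rfl, rfl⟩ | ⟨rfl, rfl⟩
  · rcases h4 with h4 | h4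
    · exact h4 h2
    · exact h3 h4
  · rcases h4 with h4 | h4
    · exact h4 h2.symm
    · exact h3 (h2.trans h4)

/-- a path in the configuration `om` either reaches height `k` or pays `b` per horizontal edge -/
lemma om_cost (hb : 0 ≤ a) (hab : a ≤ b) {i₀ i₁ : Fin d} (hne : i₀ ≠ i₁) (k : ℤ) :
    ∀ {x y : Box d n} (γ : (G d n).Walk x y),
    (∃ z ∈ γ.support, (z i₁ : ℤ) = k) ∨ b * cnt i₀ γ ≤ T a b (om d n i₁ k) γ
  | _, _, .nil => by right; simp [cnt, T]
  | x, _, .cons (v := z) h γ => by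
    rcases om_cost hb hab hne k γ with ⟨u, hu, hu2⟩ | h1
    · left
      exact ⟨u, by rw [Walk.support_cons]; exact List.mem_cons_of_mem _ hu, hu2⟩
    · by_cases hk : (x i₁ : ℤ) = k
      · left
        exact ⟨x, by simp, hk⟩
      · right
        simp only [cnt, T]
        push_cast
        have h3 : |(x i₀ : ℤ) - (z i₀ : ℤ)| + |(x i₁ : ℤ) - (z i₁ : ℤ)| ≤ 1 := by
          have := cnt_add_le hne (Walk.cons h (Walk.nil : (G d n).Walk z z))
          simpa [cnt] using this
        have h4 : b * |(x i₀ : ℝ) - (z i₀ : ℝ)| ≤ val a b (om d n i₁ k ⟨s(x, z), h⟩) := by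
          rcases eq_or_ne (x i₀ : ℤ) (z i₀ : ℤ) with h5 | h5
          · rw [h5, sub_self, abs_zero, mul_zero]
            exact hb.trans (le_val hab _)
          · have h6 : 1 ≤ |(x i₀ : ℤ) - (z i₀ : ℤ)| := Int.one_le_abs (sub_ne_zero.2 h5)
            have h7 : |(x i₁ : ℤ) - (z i₁ : ℤ)| = 0 := by
              have := abs_nonneg ((x i₁ : ℤ) - (z i₁ : ℤ))
              omega
            have h8 : (x i₁ : ℤ) = z i₁ := sub_eq_zero.1 (abs_eq_zero.1 h7)
            have h9 : |(x i₀ : ℤ) - (z i₀ : ℤ)| = 1 := by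
              have := abs_nonneg ((x i₁ : ℤ) - (z i₁ : ℤ))
              omega
            have h10 : |(x i₀ : ℝ) - (z i₀ : ℝ)| = 1 := by exact_mod_cast h9
            rw [om_false h h8 hk, h10]
            simp [val]
        rw [mul_add]
        exact add_le_add h4 h1

lemma T_true : ∀ {x y : Box d n} (γ : (G d n).Walk x y),
    T a b (fun _ => true) γ = a * γ.length
  | _, _, .nil => by simp [T]
  | x, _, .cons (v := z) h γ => by
    have h1 := T_true γ
    simp only [T, Walk.length_cons]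
    rw [h1]
    simp only [val, if_true]
    push_cast
    ring

lemma T_congr {ω ω' : Conf d n} : ∀ {x y : Box d n} (γ : (G d n).Walk x y),
    (∀ e : (G d n).edgeSet, (e : Sym2 _) ∈ γ.edges → ω e = ω' e) → T a b ω γ = T a b ω' γ
  | _, _, .nil, _ => by simp [T]
  | x, _, .cons (v := z) h γ, he => by
    have h1 := T_congr γ fun e h2 => he e (by rw [Walk.edges_cons]; exact List.mem_cons_of_mem _ h2)
    have h2 := he ⟨s(x, z), h⟩ (by rw [Walk.edges_cons]; exact List.mem_cons_self)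
    simp only [T]
    rw [h1, h2]

/-- the key statement -/
theorem main (hd : 2 ≤ d) (ha : 0 < a) (hab : a < b) {k : ℕ} (hn : 1 ≤ n) (hk : k ≤ 2 * n)
    (h1 : 2 * k * a ≤ (b - a) * n) (h2 : (b - a) * (n - 1) < 2 * k * a)
    {v : Fin d → ℤ} (hvdef : v = Pi.single (⟨0, by omega⟩ : Fin d) (1 : ℤ))
    (hv : ∀ i, |v i| ≤ 2) :
    ∃ j : (G d n).edgeSet,
      (SemiEssential a b v hv j).Nonempty ∧ VeryInfluential a b v hv j = ∅ := by
  classical
  set i₀ : Fin d := ⟨0, by omega⟩ with hi₀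
  set i₁ : Fin d := ⟨1, by omega⟩ with hi₁
  have hne : i₀ ≠ i₁ := by rw [hi₀, hi₁]; simp [Fin.ext_iff]
  have hkZ : (k : ℤ) ≤ 2 * n := by exact_mod_cast hk
  have hnZ : (1 : ℤ) ≤ n := by exact_mod_cast hn
  set p1 : Box d n := Function.update (org d n) i₁ ⟨(k : ℤ), by
    rw [Set.mem_Icc]; constructor <;> omega⟩ with hp1
  set p2 : Box d n := Function.update p1 i₀ ⟨1, by rw [Set.mem_Icc]; constructor <;> omega⟩
    with hp2
  set p3 : Box d n := Function.update p1 i₀ ⟨(n : ℤ), by rw [Set.mem_Icc]; constructor <;> omega⟩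
    with hp3
  have org_val : ∀ l, ((org d n l : _) : ℤ) = 0 := fun l => rfl
  have tgt_i₀ : ((tgt n v hv i₀ : _) : ℤ) = n := by
    change (n : ℤ) * v i₀ = n
    rw [hvdef, Pi.single_eq_same, mul_one]
  have tgt_ne : ∀ l, l ≠ i₀ → ((tgt n v hv l : _) : ℤ) = 0 := by
    intro l hl
    change (n : ℤ) * v l = 0
    rw [hvdef, Pi.single_eq_of_ne hl, mul_zero]
  have p1_i₁ : ((p1 i₁ : _) : ℤ) = k := by rw [hp1, Function.update_self]
  have p1_ne : ∀ l, l ≠ i₁ → p1 l = org d n l := fun l hl => by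
    rw [hp1, Function.update_of_ne hl]
  have p2_i₀ : ((p2 i₀ : _) : ℤ) = 1 := by rw [hp2, Function.update_self]
  have p2_ne : ∀ l, l ≠ i₀ → p2 l = p1 l := fun l hl => by rw [hp2, Function.update_of_ne hl]
  have p3_i₀ : ((p3 i₀ : _) : ℤ) = n := by rw [hp3, Function.update_self]
  have p3_ne : ∀ l, l ≠ i₀ → p3 l = p1 l := fun l hl => by rw [hp3, Function.update_of_ne hl]
  have p1_i₀ : ((p1 i₀ : _) : ℤ) = 0 := by rw [p1_ne i₀ hne]; rfl
  have hadj : (G d n).Adj p1 p2 := by
    change ∑ l, |(p1 l : ℤ) - (p2 l : ℤ)| = 1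
    rw [Finset.sum_eq_single i₀]
    · rw [p1_i₀, p2_i₀]
      simp
    · intro l _ hl
      rw [p2_ne l hl]
      simp
    · intro h
      exact absurd (Finset.mem_univ i₀) h
  set ω₀ := om d n i₁ k with hω₀
  -- the cheap path through the edge
  obtain ⟨⟨γ₁, hγ₁⟩, -⟩ := straight (a := a) (b := b) ω₀ i₁ k (org d n) p1 p1_ne
    (by rw [p1_i₁, org_val]; ring)
    (fun u u' h _ _ hne' => om_true h (Or.inl hne'))
  obtain ⟨⟨γ₂, hγ₂⟩, -⟩ := straight (a := a) (b := b) ω₀ i₀ (n - 1) p2 p3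
    (fun l hl => by rw [p3_ne l hl, p2_ne l hl])
    (by rw [p3_i₀, p2_i₀]; push_cast [hn]; ring)
    (fun u u' h hu _ _ => om_true h (Or.inr (by
      rw [hu i₁ hne.symm, p2_ne i₁ hne.symm, p1_i₁])))
  obtain ⟨-, ⟨γ₃, hγ₃⟩⟩ := straight (a := a) (b := b) ω₀ i₁ k (tgt n v hv) p3
    (fun l hl => by
      apply Subtype.ext
      by_cases hl0 : l = i₀
      · rw [hl0, p3_i₀, tgt_i₀]
      · rw [p3_ne l hl0, p1_ne l hl, tgt_ne l hl0, org_val])
    (by rw [p3_ne i₁ hne.symm, p1_i₁, tgt_ne i₁ hne.symm]; ring)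
    (fun u u' h _ _ hne' => om_true h (Or.inl hne'))
  set γ₀ : (G d n).Walk (org d n) (tgt n v hv) :=
    γ₁.append (Walk.cons hadj (γ₂.append γ₃)) with hγ₀
  have hTγ₀ : T a b ω₀ γ₀ = a * (n + 2 * k) := by
    rw [hγ₀, T_append, hγ₁]
    simp only [T]
    rw [T_append, hγ₂, hγ₃, hω₀, om_true hadj (Or.inr p1_i₁)]
    simp only [val, if_true]
    push_cast [hn]
    ring
  have hcnt₀ : ∀ γ : (G d n).Walk (org d n) (tgt n v hv), (n : ℤ) ≤ cnt i₀ γ := by
    intro γ
    have h3 := le_cnt i₀ γ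
    rw [org_val, tgt_i₀] at h3
    have h4 := neg_abs_le ((0 : ℤ) - n)
    linarith
  have hhigh : ∀ (γ : (G d n).Walk (org d n) (tgt n v hv)) (z : Box d n), z ∈ γ.support →
      (z i₁ : ℤ) = k → (n : ℝ) + 2 * k ≤ γ.length := by
    intro γ z hz hzk
    have h3 := le_cnt_of_mem i₁ γ hz
    rw [org_val, tgt_ne i₁ hne.symm, hzk] at h3
    have h4 := hcnt₀ γ
    have h5 := cnt_add_le hne γ
    have h6 : (n : ℤ) + 2 * k ≤ γ.length := by
      have h7 : |(0 : ℤ) - k| = k := by rw [zero_sub, abs_neg, Nat.abs_cast]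
      have h8 : |(k : ℤ) - 0| = k := by rw [sub_zero, Nat.abs_cast]
      rw [h7, h8] at h3
      linarith
    exact_mod_cast h6
  have hlow : ∀ γ : (G d n).Walk (org d n) (tgt n v hv), a * (n + 2 * k) ≤ T a b ω₀ γ := by
    intro γ
    rcases om_cost ha.le hab.le hne k γ with ⟨z, hz, hzk⟩ | h3
    · calc a * (n + 2 * k) ≤ a * γ.length := by gcongr; exact hhigh γ z hz hzk
        _ ≤ _ := length_le_T hab.le ω₀ γ
    · have h4 : (n : ℝ) ≤ (cnt i₀ γ : ℝ) := by exact_mod_cast hcnt₀ γ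
      calc a * (n + 2 * k) ≤ b * n := by nlinarith
        _ ≤ b * (cnt i₀ γ : ℝ) := by
          apply mul_le_mul_of_nonneg_left h4 (ha.trans hab).le
        _ ≤ _ := h3
  have hnon : Nonempty ((G d n).Walk (org d n) (tgt n v hv)) := ⟨γ₀⟩
  refine ⟨⟨s(p1, p2), hadj⟩, ⟨ω₀, γ₀, ?_, ?_⟩, ?_⟩
  · apply le_antisymm
    · rw [hTγ₀]
      exact le_ciInf hlow
    · exact f_le ha.le hab.le ω₀ γ₀
  · rw [hγ₀, Walk.edges_append, Walk.edges_cons]
    simp
  · -- never very influential
    rw [Set.eq_empty_iff_forall_notMem]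
    intro ω hω
    have hω' : f a b v hv (Function.update ω ⟨s(p1, p2), hadj⟩ false) -
      f a b v hv (Function.update ω ⟨s(p1, p2), hadj⟩ true) = b - a := hω
    set ωb := Function.update ω ⟨s(p1, p2), hadj⟩ false with hωb
    set ωa := Function.update ω ⟨s(p1, p2), hadj⟩ true with hωa
    -- a direct path
    obtain ⟨⟨γd, hγd⟩, -⟩ := straight (a := (1 : ℝ)) (b := 1) (fun _ => true) i₀ n (org d n)
      (tgt n v hv) (fun l hl => Subtype.ext (by rw [tgt_ne l hl, org_val]))
      (by rw [tgt_i₀, org_val]; ring) (fun _ _ _ _ _ _ => rfl)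
    rw [T_true, one_mul, one_mul] at hγd
    have hfb : f a b v hv ωb ≤ b * n := by
      calc _ ≤ _ := f_le ha.le hab.le ωb γd
        _ ≤ _ := T_le_length hab.le ωb γd
        _ = _ := by rw [hγd]
    have hfa : f a b v hv ωb - max 0 (b * n - a * (n + 2 * k)) ≤ f a b v hv ωa := by
      apply le_ciInf
      intro γ
      by_cases hj : s(p1, p2) ∈ γ.edges
      · have h3 := Walk.fst_mem_support_of_mem_edges γ hj
        have h4 := hhigh γ p1 h3 p1_i₁
        have h5 := length_le_T hab.le ωa γ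
        have h6 : a * (n + 2 * k) ≤ a * γ.length := by gcongr
        have h7 := le_max_right 0 (b * n - a * (n + 2 * k))
        linarith
      · have h3 : T a b ωa γ = T a b ωb γ := by
          apply T_congr
          intro e he
          have h4 : e ≠ ⟨s(p1, p2), hadj⟩ := by
            rintro rfl
            exact hj he
          rw [hωa, hωb, Function.update_of_ne h4, Function.update_of_ne h4]
        rw [h3]
        have h4 := f_le (v := v) (hv := hv) ha.le hab.le ωb γ
        have h5 := le_max_left 0 (b * n - a * (n + 2 * k))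
        linarith
    have h8 : max 0 (b * n - a * (n + 2 * k)) < b - a := by
      apply max_lt
      · linarith
      · nlinarith
    linarith

end lemmas

section measure

variable {d n : ℕ}

lemma coin_prob {p : ℝ} (hp : 0 < p) (hp1 : p < 1) : IsProbabilityMeasure
    (ENNReal.ofReal p • Measure.dirac true + ENNReal.ofReal (1 - p) • Measure.dirac false) := by
  constructor
  simp only [Measure.coe_add, Measure.coe_smul, Pi.add_apply, Pi.smul_apply, measure_univ,
    smul_eq_mul, mul_one]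
  rw [← ENNReal.ofReal_add hp.le (by linarith)]
  simp

lemma coin_pos {p : ℝ} (hp : 0 < p) (hp1 : p < 1) (c : Bool) :
    0 < (ENNReal.ofReal p • Measure.dirac true + ENNReal.ofReal (1 - p) • Measure.dirac false)
      {c} := by
  simp only [Measure.coe_add, Measure.coe_smul, Pi.add_apply, Pi.smul_apply, smul_eq_mul,
    Measure.dirac_apply]
  cases c
  · simp [hp1]
  · simp [hp]

lemma Pr_pos {p : ℝ} (hp : 0 < p) (hp1 : p < 1) {S : Set (Conf d n)} (hS : S.Nonempty) :
    0 < Pr d n p S := by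
  classical
  obtain ⟨ω, hω⟩ := hS
  have : ∀ e : (G d n).edgeSet, IsProbabilityMeasure
    (ENNReal.ofReal p • Measure.dirac true + ENNReal.ofReal (1 - p) • Measure.dirac false) :=
    fun _ => coin_prob hp hp1
  have h1 : 0 < Pr d n p {ω} := by
    unfold Pr
    rw [Measure.pi_singleton]
    rw [pos_iff_ne_zero]
    exact Finset.prod_ne_zero_iff.2 fun e _ => (coin_pos hp hp1 (ω e)).ne'
  exact h1.trans_le (measure_mono (by simpa using hω))

end measure

/-- The vector `e₁`. -/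
def e1 (d : ℕ) : Fin d → ℤ := fun i => if (i : ℕ) = 0 then 1 else 0

lemma e1_le (d : ℕ) : ∀ i, |e1 d i| ≤ 2 := by
  intro i
  unfold e1
  split_ifs <;> simp

/-- **Q1 of MP_b09029 is false for `v = e₁`, all `d ≥ 2`, `0 < a < b` and `0 < p < 1`.**  There are
`n ≥ 1` and an edge `j` of `G_n` with `P(Ê_j) > 0` and `P(Â_j) = 0`, so the inequality
`P(Ê_j) ≤ C P(Â_j)` holds for no `C`, even if `C` may depend on `j`.  If `b ≤ 5a` there are such
`j` for infinitely many `n`. -/
theorem result (d : ℕ) (hd : 2 ≤ d) (a b p : ℝ) (ha : 0 < a) (hab : a < b) (hp : 0 < p)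
    (hp1 : p < 1) :
    (∃ n ≥ 1, ∃ j : (G d n).edgeSet, 0 < Pr d n p (SemiEssential a b (e1 d) (e1_le d) j) ∧
      Pr d n p (VeryInfluential a b (e1 d) (e1_le d) j) = 0) ∧
    (b ≤ 5 * a → ∀ N : ℕ, ∃ n ≥ N, ∃ j : (G d n).edgeSet,
      0 < Pr d n p (SemiEssential a b (e1 d) (e1_le d) j) ∧
      Pr d n p (VeryInfluential a b (e1 d) (e1_le d) j) = 0) := by
  have hba : 0 < b - a := by linarith
  have hv : e1 d = Pi.single (⟨0, by omega⟩ : Fin d) (1 : ℤ) := by
    funext i
    unfold e1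
    by_cases h : (i : ℕ) = 0
    · have : i = ⟨0, by omega⟩ := Fin.ext h
      rw [if_pos h, this, Pi.single_eq_same]
    · have : i ≠ ⟨0, by omega⟩ := fun h2 => h (by rw [h2])
      rw [if_neg h, Pi.single_eq_of_ne this]
  have key : ∀ n k : ℕ, 1 ≤ n → k ≤ 2 * n → 2 * k * a ≤ (b - a) * n →
      (b - a) * (n - 1) < 2 * k * a → ∃ j : (G d n).edgeSet,
      0 < Pr d n p (SemiEssential a b (e1 d) (e1_le d) j) ∧
      Pr d n p (VeryInfluential a b (e1 d) (e1_le d) j) = 0 := by
    intro n k hn hk h1 h2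
    obtain ⟨j, h3, h4⟩ := main hd ha hab hn hk h1 h2 hv (e1_le d)
    refine ⟨j, Pr_pos hp hp1 h3, ?_⟩
    rw [h4, measure_empty]
  have hceil : ∀ k : ℕ, 1 ≤ k → 1 ≤ ⌈2 * k * a / (b - a)⌉₊ ∧
      2 * k * a ≤ (b - a) * (⌈2 * k * a / (b - a)⌉₊ : ℝ) ∧
      (b - a) * ((⌈2 * k * a / (b - a)⌉₊ : ℝ) - 1) < 2 * k * a := by
    intro k hk
    have hk0 : (0 : ℝ) < k := by exact_mod_cast hk
    have h0 : 0 < 2 * k * a / (b - a) := by positivity
    refine ⟨Nat.one_le_iff_ne_zero.2 (Nat.ceil_pos.2 h0).ne', ?_, ?_⟩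
    · have h1 := Nat.le_ceil (2 * k * a / (b - a))
      rw [div_le_iff₀ hba] at h1
      linarith
    · have h1 := Nat.ceil_lt_add_one h0.le
      have h2 : (⌈2 * k * a / (b - a)⌉₊ : ℝ) - 1 < 2 * k * a / (b - a) := by linarith
      rw [lt_div_iff₀ hba] at h2
      linarith
  constructor
  · obtain ⟨h1, h2, h3⟩ := hceil 1 le_rfl
    exact ⟨_, h1, key _ 1 h1 (by omega) (by simpa using h2) (by simpa using h3)⟩
  · intro h5 N
    obtain ⟨k, hk⟩ := exists_nat_gt (max 1 (N * (b - a) / (2 * a)))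
    have hk1 : (1 : ℝ) < k := (le_max_left _ _).trans_lt hk
    have hk1' : 1 ≤ k := by exact_mod_cast hk1.le
    obtain ⟨h1, h2, h3⟩ := hceil k hk1'
    refine ⟨⌈2 * k * a / (b - a)⌉₊, ?_, key _ k h1 ?_ h2 h3⟩
    · have h4 : (N : ℝ) * (b - a) / (2 * a) < k := (le_max_right _ _).trans_lt hk
      rw [div_lt_iff₀ (by positivity)] at h4
      have h6 : (b - a) * (N : ℝ) < (b - a) * (⌈2 * k * a / (b - a)⌉₊ : ℝ) := by linarith
      have h7 := lt_of_mul_lt_mul_left h6 hba.le
      exact_mod_cast h7.le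
    · have h4 : 2 * (k : ℝ) * a ≤ 4 * a * (⌈2 * k * a / (b - a)⌉₊ : ℝ) := by
        refine h2.trans ?_
        gcongr
        linarith
      have h6 : (k : ℝ) ≤ 2 * (⌈2 * k * a / (b - a)⌉₊ : ℝ) := by nlinarith
      exact_mod_cast h6

end Pool.Agent.Results.MP_b09029_pr.NotComparable
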